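import Pool.Agent.H33.MB2.Final

/-!
# The biased (2:1) Maker-Breaker game for aligned square lattices: sharp upper bound

Write `f(N) = log_{3/2} N + 2 log_2 N`.  For all sufficiently large `N` and all
`q ≥ √f(N) + (log N)^(-1/20)`, Maker (who moves first and claims two points per turn against one point
of Breaker) has no winning strategy for the `q x q` aligned square lattices of the board `[N] x [N]`.

The definitions `MakerWins`, `board`, `lat`, `lattices` are in `Pool.Agent.H68.MB.Game`.
-/

namespace Pool.Agent.Results.MP_e39c7e_co.SharpThreshold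

open Pool.H68.MB

theorem result :
    ∃ N0 : ℕ, ∀ N : ℕ, N0 ≤ N → ∀ q : ℕ,
      Real.sqrt (Real.logb (3 / 2) N + 2 * Real.logb 2 N) + (Real.log N) ^ (-(1 / 20) : ℝ) ≤ q →
        ¬ MakerWins (board N) (lattices N q) ∅ ∅ :=
  Pool.H33.MB2.sharp_upper

end Pool.Agent.Results.MP_e39c7e_co.SharpThreshold
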